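import Pool.Agent.Zk99.PR.E

set_option autoImplicit false

open MeasureTheory Set Filter Topology

namespace Pool.Agent.Zk99.NV

open Pool.Agent.Y749.Rig Pool.Agent.Y749.AH Pool.Agent.Zk99.PR

variable {l : Filter ℝ} {K : ℝ → ℝ}

/-- the kernels -/
structure Ker (K : ℝ → ℝ) : Prop where
  cont : Continuous K
  nn : ∀ x, 0 ≤ K x
  even : ∀ x, K (-x) = K x
  int : Integrable K

lemma Fr_bdd (T : ℝ) : ∃ B : ℝ, ∀ α, ‖Fr T α‖ ≤ B := by
  have hfin := Mp_fin T
  refine ⟨1 * (Mp T).real univ, fun α => ?_⟩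
  unfold Fr
  refine norm_integral_le_of_norm_le_const (ae_of_all _ fun x => ?_)
  rw [norm_mul, Real.norm_eq_abs, Real.norm_eq_abs]
  calc |Real.cos (2 * Real.pi * α * x)| * |ww (2 * Real.pi * x / Real.log T)| ≤ 1 * 1 := by
        refine mul_le_mul (Real.abs_cos_le_one _) ?_ (abs_nonneg _) zero_le_one
        rw [abs_of_pos (ww_pos _)]
        exact ww_le _
    _ = 1 := one_mul _

lemma KF_int (hK : Ker K) (T : ℝ) : Integrable fun α => K α * Fr T α := by
  obtain ⟨B, hB⟩ := Fr_bdd T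
  exact hK.int.mul_bdd (Fr_cont T).aestronglyMeasurable (ae_of_all _ hB)

lemma Km_int (hK : Ker K) : Integrable fun α => K α * mn α := by
  refine hK.int.mul_bdd (c := 1) mn_cont.aestronglyMeasurable (ae_of_all _ fun x => ?_)
  rw [Real.norm_eq_abs, abs_of_nonneg (mn_nonneg x)]
  exact mn_le x

lemma sym_split {g : ℝ → ℝ} (hg : Continuous g) (he : ∀ x, g (-x) = g x) (δ a b B : ℝ) :
    ∫ α in (-B)..B, g α = (∫ α in (-δ)..δ, g α) +
      2 * ((∫ α in δ..a, g α) + (∫ α in a..b, g α) + ∫ α in b..B, g α) := by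
  have hci : ∀ p q : ℝ, IntervalIntegrable g volume p q := fun p q => hg.intervalIntegrable p q
  rw [intervalIntegral.integral_add_adjacent_intervals (hci _ _) (hci _ _),
    intervalIntegral.integral_add_adjacent_intervals (hci _ _) (hci _ _)]
  rw [← intervalIntegral.integral_add_adjacent_intervals (a := -B) (b := -δ) (c := B)
    (hci _ _) (hci _ _), ← intervalIntegral.integral_add_adjacent_intervals (a := -δ)
    (b := δ) (c := B) (hci _ _) (hci _ _)]
  have : ∫ α in (-B)..(-δ), g α = ∫ α in δ..B, g α := by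
    have h6 := intervalIntegral.integral_comp_neg (a := δ) (b := B) g
    rw [← h6]
    exact intervalIntegral.integral_congr fun α _ => he α
  rw [this]
  ring

/-- the contribution of `[a, b]` can be kept -/
theorem core (RH : RiemannHypothesis) (hl : l ≤ atTop) (hlo : MeanLo l) (hK : Ker K) {a b : ℝ}
    (ha : 0 < a) (hab : a < b) {ε : ℝ} (hε : 0 < ε) : ∀ᶠ T in l,
    K 0 + (∫ α, K α * mn α) - 2 * (∫ α in a..b, K α * mn α) + 2 * (∫ α in a..b, K α * Fr T α) - ε
      ≤ ∫ α, K α * Fr T α := by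
  have hG0 : ∀ᶠ T in l, ∀ α, 0 ≤ Fr T α :=
    hl ((eventually_ge_atTop 10).mono fun T hT α => Fr_nonneg hT α)
  have hK0 := hK.nn 0
  obtain ⟨η, hη⟩ : ∃ η : ℝ, η = ε / 16 := ⟨_, rfl⟩
  have hη0 : 0 < η := by rw [hη]; positivity
  obtain ⟨e, he⟩ : ∃ e : ℝ, e = η / (K 0 + 1) := ⟨_, rfl⟩
  have he0 : 0 < e := by rw [he]; positivity
  have heK : K 0 * e ≤ η := by
    rw [he, mul_div_assoc', div_le_iff₀ (by positivity)]
    nlinarith
  -- the tail
  have htail : ∀ᶠ B : ℝ in atTop, (∫ α, K α * mn α) - η < ∫ α in (-B)..B, K α * mn α :=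
    (intervalIntegral_tendsto_integral (Km_int hK) tendsto_neg_atTop_atBot tendsto_id).eventually
      (lt_mem_nhds (by linarith))
  obtain ⟨B, hB, hbB⟩ := (htail.and (eventually_gt_atTop b)).exists
  -- near zero
  have hnear : ∀ᶠ x in 𝓝 (0 : ℝ), |K x - K 0| < min η 1 := by
    have := (hK.cont.tendsto 0).sub_const (K 0)
    rw [sub_self] at this
    have h2 := this.abs
    rw [abs_zero] at h2
    exact h2.eventually (gt_mem_nhds (lt_min hη0 one_pos))
  obtain ⟨δ1, hδ1, hδ1'⟩ := Metric.eventually_nhds_iff.1 hnear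
  obtain ⟨δ, hδ⟩ : ∃ δ : ℝ, δ = min (min (1 / 2) (a / 2)) (min (δ1 / 2) (η / (4 * (K 0 + 1)))) :=
    ⟨_, rfl⟩
  have hδ0 : 0 < δ := by
    rw [hδ]
    exact lt_min (lt_min (by norm_num) (by positivity)) (lt_min (by positivity) (by positivity))
  have hδh : δ ≤ 1 / 2 := by rw [hδ]; exact (min_le_left _ _).trans (min_le_left _ _)
  have hδa : δ < a := by
    have : δ ≤ a / 2 := by rw [hδ]; exact (min_le_left _ _).trans (min_le_right _ _)
    linarith
  have hδd : δ < δ1 := by
    have : δ ≤ δ1 / 2 := by rw [hδ]; exact (min_le_right _ _).trans (min_le_left _ _)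
    linarith
  have hδK : 2 * δ * (K 0 + 1) ≤ η := by
    have : δ ≤ η / (4 * (K 0 + 1)) := by rw [hδ]; exact (min_le_right _ _).trans (min_le_right _ _)
    rw [le_div_iff₀ (by positivity)] at this
    nlinarith
  have hKn : ∀ x ∈ Icc (-δ) δ, |K x - K 0| < min η 1 := by
    intro x hx
    apply hδ1'
    rw [Real.dist_eq, sub_zero]
    exact (abs_le.2 hx).trans_lt hδd
  have mk : ∀ a' b' : ℝ, 0 < a' → a' < b' → ∀ᶠ T in l,
      (∫ α in a'..b', K α * mn α) - η ≤ ∫ α in a'..b', K α * Fr T α := by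
    intro a' b' h1 h2
    exact low_weight (fun T => Fr_cont T) hG0 mn_cont mn_nonneg h2
      (fun a'' b'' g1 g2 g3 => hlo a'' b'' (h1.trans_le g1) g2) hK.cont
      (fun x _ => hK.nn x) hη0
  filter_upwards [mk δ a hδ0 hδa, mk b B (by linarith) hbB, hl (near0_low RH hδ0 (by linarith) he0),
    hG0] with T h1 h2 h4 hF0
  have hFc := Fr_cont T
  have hci : ∀ {g : ℝ → ℝ}, Continuous g → ∀ p q : ℝ, IntervalIntegrable g volume p q :=
    fun hg p q => hg.intervalIntegrable p q
  have c1 : Continuous fun α => K α * Fr T α := hK.cont.mul hFc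
  have c2 : Continuous fun α => K α * mn α := hK.cont.mul mn_cont
  have s1 := sym_split c1 (fun x => by rw [hK.even, Fr_even]) δ a b B
  have s2 := sym_split c2 (fun x => by rw [hK.even, mn_even]) δ a b B
  have hB0 : -B ≤ B := by linarith
  have t1 : ∫ α in (-B)..B, K α * Fr T α ≤ ∫ α, K α * Fr T α := by
    rw [intervalIntegral.integral_of_le hB0]
    exact setIntegral_le_integral (KF_int hK T) (ae_of_all _ fun x => mul_nonneg (hK.nn x) (hF0 x))
  have d2 : K 0 - η - K 0 * e ≤ ∫ α in (-δ)..δ, K α * Fr T α := by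
    obtain ⟨m, hm⟩ : ∃ m : ℝ, m = max 0 (K 0 - η) := ⟨_, rfl⟩
    have hm0 : 0 ≤ m := by rw [hm]; exact le_max_left _ _
    have hm1 : K 0 - η ≤ m := by rw [hm]; exact le_max_right _ _
    have hm2 : m ≤ K 0 := by rw [hm]; exact max_le hK0 (by linarith)
    have k1 : m * ∫ α in (-δ)..δ, Fr T α ≤ ∫ α in (-δ)..δ, K α * Fr T α := by
      rw [← intervalIntegral.integral_const_mul]
      refine intervalIntegral.integral_mono_on (by linarith)
        (hci (continuous_const.mul hFc) _ _) (hci c1 _ _) fun α hα => ?_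
      apply mul_le_mul_of_nonneg_right _ (hF0 α)
      rw [hm]
      refine max_le (hK.nn α) ?_
      have := (hKn α hα).trans_le (min_le_left _ _)
      rw [abs_lt] at this
      linarith
    have k2 : m * (1 - e) ≤ m * ∫ α in (-δ)..δ, Fr T α := mul_le_mul_of_nonneg_left h4 hm0
    have k3 : m * e ≤ K 0 * e := mul_le_mul_of_nonneg_right hm2 he0.le
    linarith
  have d4 : ∫ α in (-δ)..δ, K α * mn α ≤ η := by
    have k1 : ∫ α in (-δ)..δ, K α * mn α ≤ ∫ _ in (-δ)..δ, (K 0 + 1) := by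
      refine intervalIntegral.integral_mono_on (by linarith) (hci c2 _ _) (by simp) fun α hα => ?_
      have := (hKn α hα).trans_le (min_le_right _ _)
      rw [abs_lt] at this
      calc K α * mn α ≤ (K 0 + 1) * 1 :=
            mul_le_mul (by linarith) (mn_le α) (mn_nonneg α) (by linarith)
        _ = K 0 + 1 := mul_one _
    rw [intervalIntegral.integral_const, smul_eq_mul] at k1
    linarith
  have hηε : 16 * η = ε := by rw [hη]; ring
  linarith

/-- the lower bound -/
theorem K_low (RH : RiemannHypothesis) (hl : l ≤ atTop) (hlo : MeanLo l) (hK : Ker K)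
    {ε : ℝ} (hε : 0 < ε) : ∀ᶠ T in l,
    K 0 + (∫ α, K α * mn α) - ε ≤ ∫ α, K α * Fr T α := by
  have hG0 : ∀ᶠ T in l, ∀ α, 0 ≤ Fr T α :=
    hl ((eventually_ge_atTop 10).mono fun T hT α => Fr_nonneg hT α)
  have h1 := low_weight (a := 1) (b := 2) (fun T => Fr_cont T) hG0 mn_cont mn_nonneg (by norm_num)
      (fun a'' b'' g1 g2 g3 => hlo a'' b'' (by linarith) g2) hK.cont
      (fun x _ => hK.nn x) (show 0 < ε / 4 by positivity)
  filter_upwards [core RH hl hlo hK (a := 1) (b := 2) one_pos (by norm_num)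
    (show 0 < ε / 2 by positivity), h1] with T h2 h3
  linarith

/-- the rigidity -/
theorem K_up (RH : RiemannHypothesis) (hl : l ≤ atTop) (hlo : MeanLo l) (hK : Ker K)
    (hpos : ∀ x, 0 < x → 0 < K x)
    (h : ∀ ε : ℝ, 0 < ε → ∀ᶠ T in l, ∫ α, K α * Fr T α ≤ K 0 + (∫ α, K α * mn α) + ε) (R : ℝ) :
    MeanUp l R := by
  intro a b ha hab _ ε hε
  have hG0 : ∀ᶠ T in l, ∀ α, 0 ≤ Fr T α :=
    hl ((eventually_ge_atTop 10).mono fun T hT α => Fr_nonneg hT α)
  obtain ⟨x0, hx0, hmin⟩ := (isCompact_Icc (a := a) (b := b)).exists_isMinOn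
    (nonempty_Icc.2 hab.le) hK.cont.continuousOn
  obtain ⟨w0, hw0⟩ : ∃ w0 : ℝ, w0 = K x0 := ⟨_, rfl⟩
  have hw1 : 0 < w0 := by rw [hw0]; exact hpos _ (ha.trans_le hx0.1)
  have hw2 : ∀ x ∈ Icc a b, w0 ≤ K x := fun x hx => by rw [hw0]; exact hmin hx
  obtain ⟨e, he⟩ : ∃ e : ℝ, e = ε * w0 / 4 := ⟨_, rfl⟩
  have he0 : 0 < e := by rw [he]; positivity
  have m3 := low_weight (a := a) (b := b) (f := fun x => K x - w0) (fun T => Fr_cont T) hG0
    mn_cont mn_nonneg hab (fun a'' b'' g1 g2 g3 => hlo a'' b'' (ha.trans_le g1) g2)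
    (hK.cont.sub continuous_const) (fun x hx => sub_nonneg.2 (hw2 x hx)) he0
  filter_upwards [core RH hl hlo hK ha hab he0, m3, h e he0] with T h1 h3 h5
  have hFc := Fr_cont T
  have hci : ∀ {g : ℝ → ℝ}, Continuous g → ∀ p q : ℝ, IntervalIntegrable g volume p q :=
    fun hg p q => hg.intervalIntegrable p q
  have d5 : ∀ g : ℝ → ℝ, Continuous g → ∫ α in a..b, (K α - w0) * g α =
      (∫ α in a..b, K α * g α) - w0 * ∫ α in a..b, g α := by
    intro g hg
    have k1 : Continuous fun α => K α * g α := hK.cont.mul hg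
    have k2 : Continuous fun α => w0 * g α := continuous_const.mul hg
    rw [← intervalIntegral.integral_const_mul,
      ← intervalIntegral.integral_sub (hci k1 _ _) (hci k2 _ _)]
    refine intervalIntegral.integral_congr fun x _ => ?_
    ring
  rw [d5 _ hFc, d5 _ mn_cont] at h3
  have k2 : w0 * ∫ α in a..b, Fr T α ≤ w0 * ((∫ α in a..b, mn α) + ε) := by
    have : w0 * ε = 4 * e := by rw [he]; ring
    rw [mul_add, this]
    linarith
  exact le_of_mul_le_mul_left k2 hw1

end Pool.Agent.Zk99.NV
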