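import Pool.Agent.Zk99.NV.A

set_option autoImplicit false

open MeasureTheory Set Filter Topology

namespace Pool.Agent.Zk99.NV

open Pool.Agent.Y749.Rig Pool.Agent.Y749.AH Pool.Agent.Zk99.PR
open Pool.Agent.Y744.G (Montgomery)

variable {l : Filter ℝ} {a b : ℝ}

/-- the number variance of the Gaussian unitary ensemble -/
noncomputable def GV (a : ℝ) : ℝ :=
  a - 2 * ∫ u in (0 : ℝ)..a, (a - u) * (Real.sin (Real.pi * u) / (Real.pi * u)) ^ 2

/-- the average over the pairs of the normalised tent -/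
noncomputable def tav (T a : ℝ) : ℝ := ∫ x, tr a x ∂(Mp T)

lemma ker_kk (ha : 0 < a) : Ker (fl (tr a)) :=
  ⟨fl_cont (tr_int ha), fun x => fl_tr_nonneg ha x, fun x => fl_even x, fl_int (adm_tr ha)⟩

lemma ker_add {K K' : ℝ → ℝ} (h : Ker K) (h' : Ker K') : Ker fun x => K x + K' x :=
  ⟨h.cont.add h'.cont, fun x => add_nonneg (h.nn x) (h'.nn x),
    fun x => by rw [h.even, h'.even], h.int.add h'.int⟩

lemma tr_qd (ha : 0 < a) : QD (tr a) := by
  refine ⟨(1 + a ^ 2) / a, fun x => ?_⟩
  rw [abs_of_nonneg (tr_nonneg ha x), le_div_iff₀ (by positivity)]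
  rcases le_or_gt a |x| with h | h
  · rw [tr_supp ha x h, zero_mul]
    positivity
  · have h1 : tr a x ≤ 1 / a := by
      unfold tr
      apply div_le_div_of_nonneg_right _ ha.le
      have : 0 ≤ |x| / a := by positivity
      exact max_le zero_le_one (by linarith)
    have h2 : 1 + x ^ 2 ≤ 1 + a ^ 2 := by
      have : x ^ 2 ≤ a ^ 2 := sq_le_sq' (by linarith [(abs_lt.1 h).1]) (abs_lt.1 h).2.le
      linarith
    calc tr a x * (1 + x ^ 2) ≤ 1 / a * (1 + a ^ 2) := by
          apply mul_le_mul h1 h2 (by positivity) (by positivity)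
      _ = (1 + a ^ 2) / a := by ring

/-- the pairing with the transform of the tent -/
theorem pair_tav (ha : 0 < a) :
    Tendsto (fun T => (∫ α, fl (tr a) α * Fr T α) - tav T a) atTop (𝓝 0) := by
  have h1 := ww_remove (tr_cont a) (tr_qd ha)
  refine h1.congr fun T => ?_
  rw [Fr_pair (fl_int (adm_tr ha))]
  unfold tav
  congr 1
  refine integral_congr_ae (ae_of_all _ fun x => ?_)
  simp only
  rw [inv_four (adm_tr ha)]

lemma kk_gue (ha : 0 < a) :
    fl (tr a) 0 + ∫ α, fl (tr a) α * mn α = ∫ x, tr a x ∂mG := by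
  rw [mG_integral (tr_cont a) (tr_qd ha), fl_tr_zero ha]
  have hfi := fl_int (adm_tr ha)
  have e1 : ∀ α, fl (tr a) α * mn α = fl (tr a) α - fl (tr a) α * tr 1 α := by
    intro α
    unfold tr mn
    rw [div_one, div_one]
    rcases le_or_gt 1 |α| with hx | hx
    · rw [max_eq_left (by linarith), min_eq_right hx]; ring
    · rw [max_eq_right (by linarith), min_eq_left hx.le]
      ring
  have i1 : Integrable fun α => fl (tr a) α * tr 1 α := by
    refine Continuous.integrable_of_hasCompactSupport ?_ ?_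
    · exact (fl_cont (tr_int ha)).mul (tr_cont 1)
    · exact (adm_tr one_pos).hcs.mul_left
  have i2 : Integrable fun α => tr a α * fl (tr 1) α := by
    refine Continuous.integrable_of_hasCompactSupport ?_ ?_
    · exact (tr_cont a).mul (fl_cont (tr_int one_pos))
    · exact (adm_tr ha).hcs.mul_right
  simp_rw [e1]
  rw [integral_sub hfi i1, int_fl (adm_tr ha),
    parseval (tr_int ha) (tr_int one_pos) (tr_even a) (tr_even 1)]
  have e2 : ∫ x, tr a x * FF x = ∫ x, (tr a x - tr a x * fl (tr 1) x) := by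
    refine integral_congr_ae ?_
    have : ∀ᵐ x : ℝ, x ≠ 0 := by
      rw [ae_iff]
      simp
    filter_upwards [this] with x hx
    rw [fl_tr one_pos hx, FF, mul_one]
    ring
  rw [e2, integral_sub (tr_int ha) i2, int_tr ha]
  ring

lemma mG_tr (ha : 0 < a) : a ^ 2 * (∫ x, tr a x ∂mG) - a ^ 2 = GV a := by
  rw [← kk_gue ha, fl_tr_zero ha]
  have hfi := fl_int (adm_tr ha)
  have e1 : ∀ α, fl (tr a) α * mn α = fl (tr a) α - fl (tr a) α * tr 1 α := by
    intro α
    unfold tr mn
    rw [div_one, div_one]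
    rcases le_or_gt 1 |α| with hx | hx
    · rw [max_eq_left (by linarith), min_eq_right hx]; ring
    · rw [max_eq_right (by linarith), min_eq_left hx.le]
      ring
  have i1 : Integrable fun α => fl (tr a) α * tr 1 α := by
    refine Continuous.integrable_of_hasCompactSupport ?_ ?_
    · exact (fl_cont (tr_int ha)).mul (tr_cont 1)
    · exact (adm_tr one_pos).hcs.mul_left
  simp_rw [e1]
  rw [integral_sub hfi i1, int_fl (adm_tr ha),
    parseval (tr_int ha) (tr_int one_pos) (tr_even a) (tr_even 1)]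
  have h0 : tr a 0 = 1 / a := by unfold tr; simp
  have hc : Continuous fun x => tr a x * fl (tr 1) x := (tr_cont a).mul (fl_cont (tr_int one_pos))
  have e3 : ∫ x, tr a x * fl (tr 1) x = 2 * ∫ u in (0 : ℝ)..a, tr a u * fl (tr 1) u := by
    rw [int_supp ha (f := fun x => tr a x * fl (tr 1) x) (fun x hx => by
      rw [tr_supp ha x hx, zero_mul]),
      ← intervalIntegral.integral_add_adjacent_intervals (b := 0) (hc.intervalIntegrable _ _)
      (hc.intervalIntegrable _ _)]
    have h6 := intervalIntegral.integral_comp_neg (a := 0) (b := a)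
      (fun x => tr a x * fl (tr 1) x)
    rw [neg_zero] at h6
    rw [← h6]
    have h7 : ∫ x in (0 : ℝ)..a, tr a (-x) * fl (tr 1) (-x) =
        ∫ x in (0 : ℝ)..a, tr a x * fl (tr 1) x := by
      refine intervalIntegral.integral_congr fun x _ => ?_
      rw [tr_even, fl_even]
    rw [h7]
    ring
  have e4 : a ^ 2 * ∫ u in (0 : ℝ)..a, tr a u * fl (tr 1) u =
      ∫ u in (0 : ℝ)..a, (a - u) * (Real.sin (Real.pi * u) / (Real.pi * u)) ^ 2 := by
    rw [← intervalIntegral.integral_const_mul]
    refine intervalIntegral.integral_congr_ae ?_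
    have : ∀ᵐ x : ℝ, x ≠ 0 := by
      rw [ae_iff]
      simp
    filter_upwards [this] with x hx hx2
    rw [uIoc_of_le ha.le] at hx2
    rw [fl_tr one_pos hx, tr_eq ha hx2.1.le hx2.2, mul_one]
    field_simp
  rw [e3, h0]
  unfold GV
  have e5 : a ^ 2 * (1 + (1 / a - 2 * ∫ u in (0 : ℝ)..a, tr a u * fl (tr 1) u)) - a ^ 2 =
      a - 2 * (a ^ 2 * ∫ u in (0 : ℝ)..a, tr a u * fl (tr 1) u) := by
    field_simp
    ring
  rw [e5, e4]

/-- the two transforms have no common zero if the ratio is irrational -/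
lemma kk_pos (ha : 0 < a) (hb : 0 < b) (hab : Irrational (a / b)) (x : ℝ) (hx : 0 < x) :
    0 < fl (tr a) x + fl (tr b) x := by
  have h1 := fl_tr_nonneg ha x
  have h2 := fl_tr_nonneg hb x
  by_contra hcon
  push Not at hcon
  have e1 : fl (tr a) x = 0 := by linarith
  have e2 : fl (tr b) x = 0 := by linarith
  rw [fl_tr ha hx.ne'] at e1
  rw [fl_tr hb hx.ne'] at e2
  have hpi := Real.pi_pos
  have f1 : Real.sin (Real.pi * a * x) = 0 := by
    have := pow_eq_zero_iff (n := 2) (by norm_num) |>.1 e1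
    rcases div_eq_zero_iff.1 this with h | h
    · exact h
    · exfalso
      have : Real.pi * a * x ≠ 0 := by positivity
      exact this h
  have f2 : Real.sin (Real.pi * b * x) = 0 := by
    have := pow_eq_zero_iff (n := 2) (by norm_num) |>.1 e2
    rcases div_eq_zero_iff.1 this with h | h
    · exact h
    · exfalso
      have : Real.pi * b * x ≠ 0 := by positivity
      exact this h
  rw [Real.sin_eq_zero_iff] at f1 f2
  obtain ⟨n, hn⟩ := f1
  obtain ⟨m, hm⟩ := f2
  have g1 : a * x = n := by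
    have : (n : ℝ) * Real.pi = (a * x) * Real.pi := by rw [hn]; ring
    exact (mul_right_cancel₀ hpi.ne' this).symm
  have g2 : b * x = m := by
    have : (m : ℝ) * Real.pi = (b * x) * Real.pi := by rw [hm]; ring
    exact (mul_right_cancel₀ hpi.ne' this).symm
  have hbx : b * x ≠ 0 := by positivity
  have g3 : a / b = ((n / m : ℚ) : ℝ) := by
    push_cast
    rw [← g2, ← g1]
    field_simp
  exact hab ⟨_, g3.symm⟩

/-- given the lower half, the tent averages are at least the conjectured ones -/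
theorem tav_low (RH : RiemannHypothesis) (hl : l ≤ atTop) (hlo : LowHalf l) (ha : 0 < a)
    {ε : ℝ} (hε : 0 < ε) : ∀ᶠ T in l, (∫ x, tr a x ∂mG) - ε ≤ tav T a := by
  have h1 := K_low RH hl (meanLo_of RH hl hlo) (ker_kk ha) (show 0 < ε / 2 by positivity)
  have h2 : ∀ᶠ T in l, (∫ α, fl (tr a) α * Fr T α) - tav T a < ε / 2 :=
    hl ((pair_tav ha).eventually (gt_mem_nhds (by positivity)))
  filter_upwards [h1, h2] with T h3 h4
  rw [kk_gue ha] at h3
  linarith

/-- two tent averages decide -/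
theorem mont_of_tav (RH : RiemannHypothesis) (hl : l ≤ atTop) (hlo : LowHalf l) (ha : 0 < a)
    (hb : 0 < b) (hab : Irrational (a / b))
    (h1 : ∀ ε : ℝ, 0 < ε → ∀ᶠ T in l, tav T a ≤ (∫ x, tr a x ∂mG) + ε)
    (h2 : ∀ ε : ℝ, 0 < ε → ∀ᶠ T in l, tav T b ≤ (∫ x, tr b x ∂mG) + ε) : Montgomery l := by
  have hml := meanLo_of RH hl hlo
  refine mont_of_mean RH hl (mean_lim RH hl fun R => ?_)
  refine K_up RH hl hml (ker_add (ker_kk ha) (ker_kk hb)) (fun x hx => kk_pos ha hb hab x hx) ?_ R
  intro ε hε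
  have p1 : ∀ᶠ T in l, (∫ α, fl (tr a) α * Fr T α) - tav T a < ε / 4 :=
    hl ((pair_tav ha).eventually (gt_mem_nhds (by positivity)))
  have p2 : ∀ᶠ T in l, (∫ α, fl (tr b) α * Fr T α) - tav T b < ε / 4 :=
    hl ((pair_tav hb).eventually (gt_mem_nhds (by positivity)))
  filter_upwards [p1, p2, h1 (ε / 4) (by positivity), h2 (ε / 4) (by positivity)]
    with T q1 q2 q3 q4
  have e1 : ∫ α, (fl (tr a) α + fl (tr b) α) * Fr T α =
      (∫ α, fl (tr a) α * Fr T α) + ∫ α, fl (tr b) α * Fr T α := by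
    rw [← integral_add (KF_int (ker_kk ha) T) (KF_int (ker_kk hb) T)]
    refine integral_congr_ae (ae_of_all _ fun x => ?_)
    simp only
    ring
  have e2 : ∫ α, (fl (tr a) α + fl (tr b) α) * mn α =
      (∫ α, fl (tr a) α * mn α) + ∫ α, fl (tr b) α * mn α := by
    rw [← integral_add (Km_int (ker_kk ha)) (Km_int (ker_kk hb))]
    refine integral_congr_ae (ae_of_all _ fun x => ?_)
    simp only
    ring
  rw [e1, e2]
  have g1 := kk_gue ha
  have g2 := kk_gue hb
  linarith

/-- under pair correlation the tent averages converge -/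
theorem tav_lim (hl : l ≤ atTop) (h : Montgomery l) (ha : 0 < a) :
    Tendsto (fun T => tav T a) l (𝓝 (∫ x, tr a x ∂mG)) := by
  rw [Pool.Agent.Y744.G.Mont_iff hl] at h
  exact weak_win hl h _ (tr_cont a) (tr_qd ha)

end Pool.Agent.Zk99.NV
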