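import Pool.Agent.Zk99.NV.B

set_option autoImplicit false

open MeasureTheory Set Filter Topology
open scoped FourierTransform

namespace Pool.Agent.Zk99.NV

open Pool.Agent.Y749.Rig Pool.Agent.Y749.AH Pool.Agent.Zk99.PR
open Pool.Agent.Y744.G (Montgomery)

variable {l : Filter ℝ} {a b : ℝ} {K : ℝ → ℝ}

lemma inv_gen (hK : Ker K) (hi : Integrable (fl K)) (α : ℝ) : fl (fl K) α = K α := by
  have hi0 : Integrable (fun α : ℝ => (K α : ℂ)) := hK.int.ofReal
  have e1 : 𝓕 (fun α : ℝ => (K α : ℂ)) = fun x => ((fl K x : ℝ) : ℂ) :=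
    funext fun x => four_eq hK.int hK.even x
  have hi2 : Integrable (𝓕 (fun α : ℝ => (K α : ℂ))) := by
    rw [e1]; exact hi.ofReal
  have hc : Continuous (fun α : ℝ => (K α : ℂ)) := Complex.continuous_ofReal.comp hK.cont
  have h1 := congrFun (hc.fourierInv_fourier_eq hi0 hi2) (-α)
  rw [Real.fourierInv_eq_fourier_neg, neg_neg, e1, four_eq hi (fun x => fl_even x)] at h1
  rw [hK.even] at h1
  exact_mod_cast h1

lemma int_gen (hK : Ker K) (hi : Integrable (fl K)) : ∫ x, fl K x = K 0 := by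
  have := inv_gen hK hi 0
  unfold fl at this ⊢
  simpa using this

lemma gue3 (hK : Ker K) (hq : QD (fl K)) :
    ∫ x, fl K x ∂mG = K 0 + ∫ α, K α * mn α := by
  have hc := fl_cont hK.int
  have i1 : Integrable (fl K) := qd_int hc hq
  rw [mG_integral hc hq]
  have h1 : ∫ x, fl K x * fl (tr 1) x = ∫ x, K x * tr 1 x := by
    rw [parseval hK.int (fl_int (adm_tr one_pos)) hK.even fun x => fl_even x]
    refine integral_congr_ae (ae_of_all _ fun x => ?_)
    simp only
    rw [inv_four (adm_tr one_pos)]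
  have h2 : ∫ x, fl K x * FF x = ∫ x, (fl K x - fl K x * fl (tr 1) x) := by
    refine integral_congr_ae ?_
    have : ∀ᵐ x : ℝ, x ≠ 0 := by
      rw [ae_iff]
      simp
    filter_upwards [this] with x hx
    rw [fl_tr one_pos hx, FF, mul_one]
    ring
  have i2 : Integrable fun x => fl K x * fl (tr 1) x := by
    obtain ⟨B, hB⟩ := fl_bound (adm_tr one_pos)
    have hc := fl_cont (tr_int one_pos)
    have hB0 : 0 ≤ B := by
      have := (abs_nonneg _).trans (hB 0)
      simpa using this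
    refine i1.mul_bdd (c := B) hc.aestronglyMeasurable (ae_of_all _ fun x => ?_)
    rw [Real.norm_eq_abs]
    refine (hB x).trans ?_
    apply div_le_self hB0
    nlinarith [sq_nonneg x]
  rw [h2, integral_sub i1 i2, int_gen hK i1, h1]
  have h3 : ∀ x, K x * tr 1 x = K x - K x * mn x := by
    intro x
    unfold tr mn
    rw [div_one, div_one]
    rcases le_or_gt 1 |x| with hx | hx
    · rw [max_eq_left (by linarith), min_eq_right hx]; ring
    · rw [max_eq_right (by linarith), min_eq_left hx.le]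
      ring
  simp_rw [h3]
  rw [integral_sub hK.int (Km_int hK)]
  have h4 : fl K 0 = ∫ x, K x := by
    unfold fl; simp
  rw [h4]
  ring

/-- one strictly positive kernel decides -/
theorem mont_ker (RH : RiemannHypothesis) (hl : l ≤ atTop) (hK : Ker K) (hq : QD (fl K))
    (hpos : ∀ x, 0 < x → 0 < K x) : Montgomery l ↔ LowHalf l ∧
      ∀ ε : ℝ, 0 < ε → ∀ᶠ T in l, ∫ α, K α * Fr T α ≤ K 0 + (∫ α, K α * mn α) + ε := by
  constructor
  · intro h
    refine ⟨((mont_iff RH hl).1 h).1, fun ε hε => ?_⟩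
    rw [Pool.Agent.Y744.G.Mont_iff hl] at h
    have h1 := Fr_lim hK.int hq hl (weak_win hl h _ (fl_cont hK.int) hq)
    rw [gue3 hK hq] at h1
    filter_upwards [h1.eventually (gt_mem_nhds (show K 0 + (∫ α, K α * mn α) <
      K 0 + (∫ α, K α * mn α) + ε by linarith))] with T hT using hT.le
  · rintro ⟨hlo, h⟩
    exact mont_of_mean RH hl (mean_lim RH hl fun R => K_up RH hl (meanLo_of RH hl hlo) hK hpos h R)

/-- two number variances decide, in terms of the tents -/
theorem mont_two (RH : RiemannHypothesis) (hl : l ≤ atTop) (ha : 0 < a) (hb : 0 < b)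
    (hab : Irrational (a / b)) {V : ℝ → ℝ → ℝ}
    (hV : ∀ c : ℝ, 0 < c → Tendsto (fun T => V T c - c ^ 2 * tav T c) atTop (𝓝 (-c ^ 2))) :
    Montgomery l ↔ LowHalf l ∧
      (∀ ε : ℝ, 0 < ε → ∀ᶠ T in l, V T a ≤ GV a + ε) ∧
      (∀ ε : ℝ, 0 < ε → ∀ᶠ T in l, V T b ≤ GV b + ε) := by
  have key : ∀ c : ℝ, 0 < c → Montgomery l → ∀ ε : ℝ, 0 < ε → ∀ᶠ T in l, V T c ≤ GV c + ε := by
    intro c hc h ε hε
    have h1 := (tav_lim hl h hc).const_mul (c ^ 2)
    have h2 := ((hV c hc).mono_left hl).add h1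
    have e1 : -c ^ 2 + c ^ 2 * ∫ x, tr c x ∂mG = GV c := by rw [← mG_tr hc]; ring
    rw [e1] at h2
    filter_upwards [h2.eventually (gt_mem_nhds (show GV c < GV c + ε by linarith))] with T hT
    linarith
  have back : ∀ c : ℝ, 0 < c → (∀ ε : ℝ, 0 < ε → ∀ᶠ T in l, V T c ≤ GV c + ε) →
      ∀ ε : ℝ, 0 < ε → ∀ᶠ T in l, tav T c ≤ (∫ x, tr c x ∂mG) + ε := by
    intro c hc h ε hε
    have h3 : ∀ᶠ T in l, -c ^ 2 - c ^ 2 * (ε / 2) < V T c - c ^ 2 * tav T c :=
      hl ((hV c hc).eventually (lt_mem_nhds (by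
        have : 0 < c ^ 2 * (ε / 2) := by positivity
        linarith)))
    filter_upwards [h3, h (c ^ 2 * (ε / 2)) (by positivity)] with T h4 h5
    rw [← mG_tr hc] at h5
    have hc2 : 0 < c ^ 2 := by positivity
    have h6 : c ^ 2 * tav T c ≤ c ^ 2 * ((∫ x, tr c x ∂mG) + ε) := by nlinarith
    exact le_of_mul_le_mul_left h6 hc2
  constructor
  · intro h
    exact ⟨((mont_iff RH hl).1 h).1, key a ha h, key b hb h⟩
  · rintro ⟨hlo, h1, h2⟩
    exact mont_of_tav RH hl hlo ha hb hab (back a ha h1) (back b hb h2)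

/-- the number variance is at least the conjectured one -/
theorem var_low (RH : RiemannHypothesis) (hl : l ≤ atTop) (hlo : LowHalf l) {V : ℝ → ℝ → ℝ}
    (hV : ∀ c : ℝ, 0 < c → Tendsto (fun T => V T c - c ^ 2 * tav T c) atTop (𝓝 (-c ^ 2)))
    (ha : 0 < a) {ε : ℝ} (hε : 0 < ε) : ∀ᶠ T in l, GV a - ε ≤ V T a := by
  have ha2 : 0 < a ^ 2 := by positivity
  have h3 : ∀ᶠ T in l, -a ^ 2 - ε / 2 < V T a - a ^ 2 * tav T a :=
    hl ((hV a ha).eventually (lt_mem_nhds (by linarith)))
  filter_upwards [h3, tav_low RH hl hlo ha (show 0 < ε / (2 * a ^ 2) by positivity)] with T h4 h5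
  rw [← mG_tr ha]
  have h6 : a ^ 2 * ((∫ x, tr a x ∂mG) - ε / (2 * a ^ 2)) ≤ a ^ 2 * tav T a :=
    mul_le_mul_of_nonneg_left h5 ha2.le
  have h7 : a ^ 2 * (ε / (2 * a ^ 2)) = ε / 2 := by field_simp
  rw [mul_sub, h7] at h6
  linarith

/-- the close pairs -/
theorem close_low (RH : RiemannHypothesis) (hl : l ≤ atTop) (hlo : LowHalf l)
    (ha : 0 < a) {ε : ℝ} (hε : 0 < ε) : ∀ᶠ T in l, (GV a + a ^ 2) / a - ε ≤ PP T a := by
  have h0 : (GV a + a ^ 2) / a = a * ∫ x, tr a x ∂mG := by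
    rw [← mG_tr ha]
    field_simp
    ring
  filter_upwards [tav_low RH hl hlo ha (show 0 < ε / a by positivity)] with T h5
  have hfin := Mp_fin T
  have h6 : a * tav T a ≤ PP T a := by
    unfold tav PP
    rw [← integral_const_mul, ← integral_indicator_one measurableSet_Icc]
    refine integral_mono_of_nonneg (ae_of_all _ fun x => mul_nonneg ha.le (tr_nonneg ha x)) ?_
      (ae_of_all _ fun x => ?_)
    · exact (integrable_const (1 : ℝ)).indicator measurableSet_Icc
    · simp only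
      by_cases hx : x ∈ Icc (-a) a
      · rw [indicator_of_mem hx, Pi.one_apply]
        unfold tr
        rw [mul_div_cancel₀ _ ha.ne']
        have : 0 ≤ |x| / a := by positivity
        exact max_le zero_le_one (by linarith)
      · rw [indicator_of_notMem hx, tr_supp ha x, mul_zero]
        by_contra hcon
        push Not at hcon
        exact hx ⟨(abs_lt.1 hcon).1.le, (abs_lt.1 hcon).2.le⟩
  have h7 : a * ((∫ x, tr a x ∂mG) - ε / a) ≤ a * tav T a := mul_le_mul_of_nonneg_left h5 ha.le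
  have h8 : a * (ε / a) = ε := by field_simp
  rw [mul_sub, h8] at h7
  rw [h0]
  linarith

end Pool.Agent.Zk99.NV
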