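import Pool.Agent.Zk99.NV.Var

set_option autoImplicit false

open MeasureTheory Set Filter Topology

namespace Pool.Agent.Zk99.NV

variable {S : Set ℂ} {m : ℂ → ℝ}

lemma PS_eq (hf : ∀ T, (ZT S T).Finite) {T lam : ℝ} (hT : 1 < T) (hlam : 0 < lam) :
    ∑ s ∈ (hf T).toFinset, ∑ s' ∈ (hf T).toFinset,
      m s * m s' * te (2 * Real.pi * lam / Real.log T) s.im s'.im =
        2 * Real.pi * lam / Real.log T * PS S m T lam := by
  unfold PS
  rw [finsum_mem_eq_finite_toFinset_sum _ (hf T), Finset.mul_sum]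
  refine Finset.sum_congr rfl fun s _ => ?_
  rw [finsum_mem_eq_finite_toFinset_sum _ (hf T), Finset.mul_sum]
  refine Finset.sum_congr rfl fun s' _ => ?_
  have hL : 0 < Real.log T := Real.log_pos hT
  have hpi := Real.pi_pos
  have hh : 0 < 2 * Real.pi * lam / Real.log T := by positivity
  have e : te (2 * Real.pi * lam / Real.log T) s.im s'.im = 2 * Real.pi * lam / Real.log T *
      max 0 (1 - |s.im - s'.im| * Real.log T / (2 * Real.pi * lam)) := by
    unfold te
    rw [mul_max_of_nonneg _ _ hh.le, mul_zero]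
    congr 1
    field_simp
  rw [e]
  ring

lemma PS_nonneg (hm : ∀ s, 0 ≤ m s) (hf : ∀ T, (ZT S T).Finite) (T lam : ℝ) :
    0 ≤ PS S m T lam := by
  unfold PS
  rw [finsum_mem_eq_finite_toFinset_sum _ (hf T)]
  refine Finset.sum_nonneg fun s _ => ?_
  rw [finsum_mem_eq_finite_toFinset_sum _ (hf T)]
  exact Finset.sum_nonneg fun s' _ => mul_nonneg (mul_nonneg (hm s) (hm s')) (le_max_left _ _)

lemma low_ev (hf : ∀ T, (ZT S T).Finite) {lam : ℝ} :
    ∀ᶠ T in atTop, 2 * Real.pi * lam / Real.log T ≤ 1 ∧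
      ∀ s ∈ ZT S T, 2 * Real.pi * lam / Real.log T ≤ s.im := by
  have hlim : Tendsto (fun T => 2 * Real.pi * lam / Real.log T) atTop (𝓝 0) :=
    tendsto_const_nhds.div_atTop Real.tendsto_log_atTop
  have hδ : ∃ δ : ℝ, 0 < δ ∧ ∀ s ∈ ZT S 1, δ ≤ s.im := by
    rcases (hf 1).toFinset.eq_empty_or_nonempty with he | hne
    · refine ⟨1, one_pos, fun s hs => ?_⟩
      have : s ∈ (hf 1).toFinset := (Set.Finite.mem_toFinset _).2 hs
      rw [he] at this
      simp at this
    · obtain ⟨s0, hs0, hmin⟩ := (hf 1).toFinset.exists_min_image (fun s => s.im) hne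
      refine ⟨s0.im, ?_, fun s hs => hmin s ((Set.Finite.mem_toFinset _).2 hs)⟩
      rw [Set.Finite.mem_toFinset] at hs0
      exact hs0.2.1
  obtain ⟨δ, hδ0, hδ1⟩ := hδ
  filter_upwards [hlim.eventually (gt_mem_nhds (show 0 < min δ 1 from lt_min hδ0 one_pos))]
    with T hT
  refine ⟨hT.le.trans (min_le_right _ _), fun s hs => ?_⟩
  rcases le_or_gt s.im 1 with h1 | h1
  · exact (hT.le.trans (min_le_left _ _)).trans (hδ1 s ⟨hs.1, hs.2.1, h1⟩)
  · exact (hT.le.trans (min_le_right _ _)).trans h1.le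

lemma log_small (C : ℝ) (n : ℕ) : Tendsto (fun T : ℝ => C * Real.log T ^ n / T) atTop (𝓝 0) := by
  have h := (Real.isLittleO_pow_log_id_atTop (n := n)).tendsto_div_nhds_zero.const_mul C
  rw [mul_zero] at h
  refine h.congr fun T => ?_
  simp only [id]
  ring

theorem t_VAR : S_VAR := by
  intro S m hm hf hN hW lam hlam
  obtain ⟨C, hC⟩ := hW
  have hpi := Real.pi_pos
  -- the two error terms
  obtain ⟨h, hh⟩ : ∃ h : ℝ → ℝ, ∀ T, h T = 2 * Real.pi * lam / Real.log T := ⟨_, fun _ => rfl⟩
  obtain ⟨X, hX⟩ : ∃ X : ℝ → ℝ, ∀ T, X T = T * Real.log T / (2 * Real.pi) := ⟨_, fun _ => rfl⟩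
  obtain ⟨I2, hI2⟩ : ∃ I2 : ℝ → ℝ, ∀ T, I2 T =
    ∫ t in (0 : ℝ)..T, (∑ s ∈ (hf (T + h T)).toFinset, m s * E (h T) s.im t) ^ 2 :=
      ⟨_, fun _ => rfl⟩
  obtain ⟨I1, hI1⟩ : ∃ I1 : ℝ → ℝ, ∀ T, I1 T =
    ∫ t in (0 : ℝ)..T, (∑ s ∈ (hf (T + h T)).toFinset, m s * E (h T) s.im t) :=
      ⟨_, fun _ => rfl⟩
  have e2 : Tendsto (fun T => I2 T / T - lam * (PS S m T lam / X T)) atTop (𝓝 0) := by
    refine squeeze_zero' (g := fun T => 2 * C ^ 2 * Real.log T ^ 4 / T) ?_ ?_ (log_small _ 4)
    · filter_upwards [low_ev hf (lam := lam), eventually_gt_atTop 1] with T h1 hT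
      have hT0 : 0 < T := by linarith
      have hL : 0 < Real.log T := Real.log_pos hT
      rw [← hh] at h1
      have hh0 : 0 ≤ h T := by rw [hh]; positivity
      have g := sq_low (S := S) hm hf hT0.le hh0 h1.2
      rw [← hI2] at g
      simp only [hh] at g
      rw [PS_eq hf hT hlam] at g
      have e : lam * (PS S m T lam / X T) = 2 * Real.pi * lam / Real.log T * PS S m T lam / T := by
        rw [hX]
        field_simp
      rw [e, ← sub_div]
      exact div_nonneg (by linarith) hT0.le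
    · filter_upwards [low_ev hf (lam := lam), eventually_gt_atTop 1, hC] with T h1 hT hCT
      have hT0 : 0 < T := by linarith
      have hL : 0 < Real.log T := Real.log_pos hT
      rw [← hh] at h1
      have hh0 : 0 ≤ h T := by rw [hh]; positivity
      have g := sq_up (S := S) hm hf hT0.le hh0 h1.1
      rw [← hI2] at g
      simp only [hh] at g
      rw [PS_eq hf hT hlam] at g
      have e : lam * (PS S m T lam / X T) = 2 * Real.pi * lam / Real.log T * PS S m T lam / T := by
        rw [hX]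
        field_simp
      rw [e, ← sub_div]
      apply div_le_div_of_nonneg_right _ hT0.le
      have hW0 : 0 ≤ NN S m (T + 1) - NN S m (T - 1) := by
        have := NN_mono (S := S) hm hf (show T - 1 ≤ T + 1 by linarith)
        linarith
      have g2 : (NN S m (T + 1) - NN S m (T - 1)) ^ 2 ≤ (C * Real.log T ^ 2) ^ 2 :=
        pow_le_pow_left₀ hW0 hCT 2
      have g3 : 2 * Real.pi * lam / Real.log T * (NN S m (T + 1) - NN S m (T - 1)) ^ 2 ≤
          1 * (C * Real.log T ^ 2) ^ 2 := by
        apply mul_le_mul _ g2 (sq_nonneg _) zero_le_one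
        rw [← hh]
        exact h1.1
      have g4 : 1 * (C * Real.log T ^ 2) ^ 2 = C ^ 2 * Real.log T ^ 4 := by ring
      linarith
  have e1 : Tendsto (fun T => I1 T / T - lam * (NN S m T / X T)) atTop (𝓝 0) := by
    refine squeeze_zero' (g := fun T => C * Real.log T ^ 2 / T) ?_ ?_ (log_small _ 2)
    · filter_upwards [low_ev hf (lam := lam), eventually_gt_atTop 1] with T h1 hT
      have hT0 : 0 < T := by linarith
      have hL : 0 < Real.log T := Real.log_pos hT
      rw [← hh] at h1
      have hh0 : 0 ≤ h T := by rw [hh]; positivity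
      have g := lin_low (S := S) hm hf hT0.le hh0 h1.2
      rw [← hI1] at g
      have e : lam * (NN S m T / X T) = h T * NN S m T / T := by
        rw [hX, hh]
        field_simp
      rw [e, ← sub_div]
      exact div_nonneg (by linarith) hT0.le
    · filter_upwards [low_ev hf (lam := lam), eventually_gt_atTop 1, hC] with T h1 hT hCT
      have hT0 : 0 < T := by linarith
      have hL : 0 < Real.log T := Real.log_pos hT
      rw [← hh] at h1
      have hh0 : 0 ≤ h T := by rw [hh]; positivity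
      have g := lin_up (S := S) hm hf hT0.le hh0 h1.1
      rw [← hI1] at g
      have e : lam * (NN S m T / X T) = h T * NN S m T / T := by
        rw [hX, hh]
        field_simp
      rw [e, ← sub_div]
      apply div_le_div_of_nonneg_right _ hT0.le
      have hW0 : 0 ≤ NN S m (T + 1) - NN S m (T - 1) := by
        have := NN_mono (S := S) hm hf (show T - 1 ≤ T + 1 by linarith)
        linarith
      have g3 : h T * (NN S m (T + 1) - NN S m (T - 1)) ≤ 1 * (C * Real.log T ^ 2) :=
        mul_le_mul h1.1 hCT hW0 zero_le_one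
      linarith
  have e3 : Tendsto (fun T => lam * (NN S m T / X T)) atTop (𝓝 (lam * 1)) := by
    refine Tendsto.const_mul lam (hN.congr fun T => ?_)
    rw [hX]
  have e4 := (e2.sub ((e1.add e3).const_mul (2 * lam))).add_const (lam ^ 2)
  have e5 : (0 : ℝ) - 2 * lam * (0 + lam * 1) + lam ^ 2 = -lam ^ 2 := by ring
  rw [e5] at e4
  refine e4.congr' ?_
  filter_upwards [eventually_gt_atTop 1] with T hT
  have hT0 : 0 < T := by linarith
  have hL : 0 < Real.log T := Real.log_pos hT
  have hh0 : 0 ≤ h T := by rw [hh]; positivity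
  have g := expand (S := S) (m := m) hf hT0.le hh0 lam
  rw [← hI1, ← hI2] at g
  rw [← hh, g, ← hX]
  field_simp
  ring

end Pool.Agent.Zk99.NV
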