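import Pool.Agent.Zk99.NV.C
import Pool.Agent.Zk99.NV.Var2

set_option autoImplicit false

open MeasureTheory Set Filter Topology

namespace Pool.Agent.Zk99.NV

open Pool.Agent.Y749.Rig Pool.Agent.Y749.AH Pool.Agent.Zk99.PR

/-- the nontrivial zeros -/
def Z0 : Set ℂ := {s : ℂ | 0 < s.re ∧ s.re < 1 ∧ riemannZeta s = 0}

lemma ZT_eq (T : ℝ) : ZT Z0 T = ((ZZ T : Finset ℂ) : Set ℂ) := by
  ext s
  rw [Finset.mem_coe, mem_ZZ]
  constructor
  · rintro ⟨⟨h1, h2, h3⟩, h4, h5⟩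
    exact ⟨h3, h1, h2, h4.le, h5⟩
  · intro h
    exact ⟨⟨h.2.1, h.2.2.1, h.1⟩, zs_im_pos h, h.2.2.2.2⟩

lemma ZT_fin (T : ℝ) : (ZT Z0 T).Finite := by
  rw [ZT_eq]
  exact Finset.finite_toSet _

lemma NN_ZZ (T : ℝ) : NN Z0 mm T = ∑ s ∈ ZZ T, mm s := by
  unfold NN
  rw [ZT_eq]
  exact finsum_mem_coe_finset _ _

lemma NN_H (T : ℝ) : NN Z0 mm T = (H370.NN riemannZeta 0 T : ℝ) := by
  rw [NN_ZZ, ZZ_eq, ← Pool.Agent.Y744.sum_Zt]
  rfl

lemma NN_asy : Tendsto (fun T => NN Z0 mm T / (T * Real.log T / (2 * Real.pi))) atTop (𝓝 1) := by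
  rw [Metric.tendsto_atTop]
  intro ε hε
  obtain ⟨T0, hT0, h⟩ := Pool.Agent.W54.TCF.NT_asymp' (ε / 2) (by positivity)
  refine ⟨T0, fun T hT => ?_⟩
  obtain ⟨h1, h2⟩ := h T hT
  have hn := nT_pos (show 10 ≤ T by linarith)
  have e : T / (2 * Real.pi) * Real.log T = nT T := by unfold nT; ring
  rw [e] at h1 h2
  rw [NN_H, Real.dist_eq]
  show |(H370.NN riemannZeta 0 T : ℝ) / nT T - 1| < ε
  have e2 : (H370.NN riemannZeta 0 T : ℝ) / nT T - 1 =
      ((H370.NN riemannZeta 0 T : ℝ) - nT T) / nT T := by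
    field_simp
  rw [e2, abs_div, abs_of_pos hn, div_lt_iff₀ hn, abs_lt]
  constructor <;> nlinarith

lemma NN_win : ∃ C : ℝ, ∀ᶠ T in atTop,
    NN Z0 mm (T + 1) - NN Z0 mm (T - 1) ≤ C * Real.log T ^ 2 := by
  obtain ⟨C, hC, h⟩ := Pool.Agent.Y744.short_count
  refine ⟨C, ?_⟩
  filter_upwards [eventually_ge_atTop 11] with T hT
  have h1 := h (T - 1) (by linarith)
  have h2 := NN_mono (S := Z0) (m := mm) mm_nonneg ZT_fin (show T + 1 ≤ T - 1 + 3 by linarith)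
  have h3 := Pool.Agent.W54.TCF.NN_zero_add (A := T - 1) (X := T - 1 + 3) (by linarith)
    (by linarith)
  have h4 : NN Z0 mm (T - 1 + 3) = NN Z0 mm (T - 1) +
      (H370.NN riemannZeta (T - 1) (T - 1 + 3) : ℝ) := by
    rw [NN_H, NN_H, h3]
    push_cast
    ring
  rw [Pool.Agent.Y744.sum_Zb (by linarith)] at h1
  have h5 : Real.log (T - 1) ^ 2 ≤ Real.log T ^ 2 := by
    apply pow_le_pow_left₀ (Real.log_nonneg (by linarith))
    exact Real.log_le_log (by linarith) (by linarith)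
  have h6 : C * Real.log (T - 1) ^ 2 ≤ C * Real.log T ^ 2 := mul_le_mul_of_nonneg_left h5 hC.le
  linarith

lemma PS_tav {T c : ℝ} (hT : 10 ≤ T) (hc : 0 < c) :
    PS Z0 mm T c / (T * Real.log T / (2 * Real.pi)) = c * tav T c := by
  have hn := nT_pos hT
  unfold tav
  rw [Mp_integral hT]
  show PS Z0 mm T c / nT T = _
  rw [← mul_div_assoc]
  congr 1
  unfold PS RR
  rw [ZT_eq, finsum_mem_coe_finset, Finset.mul_sum]
  refine Finset.sum_congr rfl fun s _ => ?_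
  rw [finsum_mem_coe_finset, Finset.mul_sum]
  refine Finset.sum_congr rfl fun s' _ => ?_
  have hL := one_lt_log (show 3 ≤ T by linarith)
  have hpi := Real.pi_pos
  have e : c * tr c ((s.im - s'.im) * Real.log T / (2 * Real.pi)) =
      max 0 (1 - |s.im - s'.im| * Real.log T / (2 * Real.pi * c)) := by
    unfold tr
    rw [mul_div_cancel₀ _ hc.ne', abs_div, abs_mul, abs_of_pos (show 0 < Real.log T by linarith),
      abs_of_pos (show 0 < 2 * Real.pi by positivity), div_div]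
  rw [← e]
  ring

/-- the number variance and the tent average -/
theorem var_tav {c : ℝ} (hc : 0 < c) : Tendsto (fun T => (1 / T) * (∫ t in (0 : ℝ)..T,
    (NN Z0 mm (t + 2 * Real.pi * c / Real.log T) - NN Z0 mm t - c) ^ 2) - c ^ 2 * tav T c) atTop
      (𝓝 (-c ^ 2)) := by
  have h := t_VAR Z0 mm mm_nonneg ZT_fin NN_asy NN_win c hc
  refine h.congr' ?_
  filter_upwards [eventually_ge_atTop 10] with T hT
  rw [PS_tav hT hc]
  ring

end Pool.Agent.Zk99.NV
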