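import Pool.Agent.Zk99.NV.D
import Pool.Agent.Y749.AH.Main2

set_option autoImplicit false

open MeasureTheory Set Filter Topology

namespace Pool.Agent.Zk99.NV

open Pool.Agent.Y749.Rig Pool.Agent.Y749.AH Pool.Agent.Zk99.PR
open SG (NZ ord)

open scoped Classical in
/-- if there are few small spacings then there are few close pairs -/
theorem few_gaps (hRH : RiemannHypothesis) {r η : ℝ} (hr : 0 < r) (hη : 0 < η) :
    ∃ c : ℝ, 0 < c ∧ ∀ᶠ T in atTop, (((II T).filter (fun j => dj j < 2 * r)).card : ℝ) ≤ c * NZ T →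
      PP T r ≤ 1 + η := by
  obtain ⟨M, hM1, κ, hκ, hM⟩ := pairs_bad hRH hr (show 0 < η / 16 by positivity)
  have hM0 : (1 : ℝ) ≤ M := by exact_mod_cast hM1
  refine ⟨η / (16 * M ^ 2), by positivity, ?_⟩
  filter_upwards [hM (r / 2) (by positivity), eventually_ge_atTop 10,
    N_asymp (show (0 : ℝ) < 1 by norm_num),
    N_asymp (show (0 : ℝ) < η / 2 by positivity), eventually_ge_atTop (1 / κ)]
    with T h1 hT hN hN2 hTκ h2
  have hn := nT_pos hT
  obtain ⟨B, hB⟩ : ∃ B : Finset ℕ, B = (II T).filter (fun j => dj j < 2 * r) := ⟨_, rfl⟩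
  rw [← hB] at h2
  have h4 := h1 B
  have e1 : PP T r = ∫ x, (Icc (-r) r).indicator (fun _ => (1 : ℝ)) x ∂(Mp T) := by
    unfold PP
    rw [integral_indicator measurableSet_Icc, setIntegral_const, smul_eq_mul, mul_one]
  rw [e1, Mp_ix hRH hT]
  have e2 := sum_sym T (G := (Icc (-r) r).indicator (fun _ => (1 : ℝ))) (by
    intro x
    by_cases hx : x ∈ Icc (-r) r
    · have hx' : -x ∈ Icc (-r) r := ⟨by linarith [hx.2], by linarith [hx.1]⟩
      rw [indicator_of_mem hx, indicator_of_mem hx']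
    · have hx' : -x ∉ Icc (-r) r := fun h => hx
        ⟨by linarith [h.2], by linarith [h.1]⟩
      rw [indicator_of_notMem hx, indicator_of_notMem hx'])
  unfold II at e2
  rw [e2, indicator_of_mem (show (0 : ℝ) ∈ Icc (-r) r by constructor <;> linarith), mul_one]
  have h5 : ∑ p ∈ ((II T) ×ˢ (II T)).filter (fun p : ℕ × ℕ => p.2 < p.1),
      (Icc (-r) r).indicator (fun _ => (1 : ℝ)) (xx T p.1 p.2) ≤
      η / 16 * NZ T + M ^ 2 * B.card := by
    refine le_trans ?_ h4
    have e3 : ∀ p : ℕ × ℕ, (Icc (-r) r).indicator (fun _ => (1 : ℝ))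
        (xx T p.1 p.2) = if xx T p.1 p.2 ∈ Icc (-r) r then 1 else 0 := by
      intro p
      by_cases hx : xx T p.1 p.2 ∈ Icc (-r) r
      · rw [indicator_of_mem hx, if_pos hx]
      · rw [indicator_of_notMem hx, if_neg hx]
    simp_rw [e3]
    rw [Finset.sum_boole, Finset.filter_filter]
    refine Nat.cast_le.2 (Finset.card_le_card ?_)
    rintro ⟨i, j⟩ hp
    rw [Finset.mem_filter, Finset.mem_product] at hp ⊢
    obtain ⟨⟨hi, hj⟩, hji, hx⟩ := hp
    simp only at hi hj hji hx
    refine ⟨⟨hi, hj⟩, hji, hx.2, ?_⟩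
    rintro ⟨g0, g1, g2, g3⟩
    simp only at g0 g1 g2 g3
    have g4 := g2 j le_rfl hji
    rw [hB, Finset.mem_filter] at g4
    push Not at g4
    have g5 : 2 * r ≤ dj j := g4 hj
    have g6 : dj j ≤ gt i - gt j := by
      have hj1 := (mem_II.1 hj).1
      have g7 := gt_low (i := i) (j := j + 1) (by omega) (by omega)
      have g8 : 0 ≤ (ord i - ord (j + 1)) * (Real.log (ord (j + 1)) + 1) / (2 * Real.pi) := by
        have hpi := Real.pi_pos
        have g9 := SG.ord_mono (show 1 ≤ j + 1 by omega) (show j + 1 ≤ i by omega)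
        have g10 : 0 ≤ Real.log (ord (j + 1)) + 1 := by
          have k1 : 1 ≤ κ * T := by
            rw [div_le_iff₀ hκ] at hTκ
            linarith
          have k2 := SG.ord_mono hj1 (Nat.le_succ j)
          have k3 : 0 ≤ Real.log (ord (j + 1)) := Real.log_nonneg (by
            show 1 ≤ ord (j + 1)
            have : ord j ≤ ord (j + 1) := k2
            linarith)
          linarith
        apply div_nonneg _ (by positivity)
        apply mul_nonneg _ g10
        linarith
      unfold dj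
      linarith
    rw [abs_le] at g3
    linarith [g3.1, hx.2]
  have h6 : (M : ℝ) ^ 2 * B.card ≤ η / 16 * NZ T := by
    calc (M : ℝ) ^ 2 * B.card ≤ M ^ 2 * (η / (16 * M ^ 2) * NZ T) := by gcongr
      _ = η / 16 * NZ T := by field_simp
  have h7 : η / 16 * NZ T ≤ η / 16 * (2 * nT T) := by
    gcongr
    linarith [hN.2]
  unfold II at h5 h6
  rw [div_le_iff₀ hn]
  nlinarith [hN2.2]

variable {l : Filter ℝ} {a : ℝ}

lemma GV_ratio (ha : 0 < a) : 1 < (GV a + a ^ 2) / a := by
  rw [lt_div_iff₀ ha, one_mul]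
  unfold GV
  have hpi := Real.pi_pos
  have hii : IntervalIntegrable (fun u : ℝ => (a - u) * (Real.sin (Real.pi * u) / (Real.pi * u)) ^ 2)
      volume 0 a := by
    have hc : Continuous fun u : ℝ => (a - u) * fl (tr 1) u :=
      (continuous_const.sub continuous_id).mul (fl_cont (tr_int one_pos))
    refine (hc.intervalIntegrable 0 a).congr_ae ?_
    have : ∀ᵐ x : ℝ, x ≠ 0 := by
      rw [ae_iff]
      simp
    refine ae_restrict_of_ae ?_
    filter_upwards [this] with x hx
    rw [fl_tr one_pos hx, mul_one]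
  have h1 : ∫ u in (0 : ℝ)..a, (a - u) * (Real.sin (Real.pi * u) / (Real.pi * u)) ^ 2 <
      ∫ u in (0 : ℝ)..a, (a - u) := by
    refine intervalIntegral.integral_lt_integral_of_ae_le_of_measure_setOfPred_lt_ne_zero ha.le hii
      (by apply Continuous.intervalIntegrable; fun_prop) ?_ ?_
    · rw [Filter.EventuallyLE, ae_restrict_iff' measurableSet_Ioc]
      refine ae_of_all _ fun u hu => ?_
      have hx : 0 < Real.pi * u := mul_pos hpi hu.1
      have h2 : |Real.sin (Real.pi * u) / (Real.pi * u)| ≤ 1 := by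
        rw [abs_div, abs_of_pos hx, div_le_one hx]
        exact (Real.abs_sin_le_abs).trans (le_of_eq (abs_of_pos hx))
      have h3 : (Real.sin (Real.pi * u) / (Real.pi * u)) ^ 2 ≤ 1 := by
        rw [← sq_abs]
        exact pow_le_one₀ (abs_nonneg _) h2
      have h4 : 0 ≤ a - u := by linarith [hu.2]
      nlinarith
    · have hsub : Ioo 0 a ⊆ {u | (a - u) * (Real.sin (Real.pi * u) / (Real.pi * u)) ^ 2 < a - u} := by
        intro u hu
        have hx : 0 < Real.pi * u := mul_pos hpi hu.1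
        have h2 : |Real.sin (Real.pi * u) / (Real.pi * u)| < 1 := by
          rw [abs_div, abs_of_pos hx, div_lt_one hx]
          have := Real.abs_sin_lt_abs hx.ne'
          rwa [abs_of_pos hx] at this
        have h3 : (Real.sin (Real.pi * u) / (Real.pi * u)) ^ 2 < 1 := by
          rw [← sq_abs]
          exact pow_lt_one₀ (abs_nonneg _) h2 (by norm_num)
        have h4 : 0 < a - u := by linarith [hu.2]
        rw [Set.mem_ofPred_eq]
        nlinarith
      have h5 : 0 < (volume.restrict (Ioc 0 a)) (Ioo 0 a) := by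
        rw [Measure.restrict_apply measurableSet_Ioo, inter_eq_left.2 Ioo_subset_Ioc_self]
        simp [ha]
      exact (h5.trans_le (measure_mono hsub)).ne'
  have h2 : ∫ u in (0 : ℝ)..a, (a - u) = a ^ 2 / 2 := by
    rw [intervalIntegral.integral_sub (by simp) (by simp)]
    simp
    ring
  rw [h2] at h1
  linarith

/-- a positive proportion of small spacings -/
theorem gaps_pos (RH : RiemannHypothesis) (hl : l ≤ atTop) (hlo : LowHalf l) (ha : 0 < a) :
    ∃ c : ℝ, 0 < c ∧ ∀ᶠ T in l, c * NZ T ≤ ({j : ℕ | 1 ≤ j ∧ j ≤ NZ T ∧ dj j < a}.ncard : ℝ) := by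
  classical
  have h1 := GV_ratio (show 0 < a / 2 by positivity)
  obtain ⟨η, hη⟩ : ∃ η : ℝ, η = ((GV (a / 2) + (a / 2) ^ 2) / (a / 2) - 1) / 3 := ⟨_, rfl⟩
  have hη0 : 0 < η := by rw [hη]; linarith
  obtain ⟨c, hc, h2⟩ := few_gaps RH (show 0 < a / 2 by positivity) hη0
  refine ⟨c, hc, ?_⟩
  filter_upwards [hl h2, close_low RH hl hlo (show 0 < a / 2 by positivity) hη0] with T h3 h4
  by_contra hcon
  push Not at hcon
  have e : ({j : ℕ | 1 ≤ j ∧ j ≤ NZ T ∧ dj j < a}.ncard : ℝ) =
      (((II T).filter (fun j => dj j < 2 * (a / 2))).card : ℝ) := by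
    rw [← Set.ncard_coe_finset]
    congr 2
    ext j
    simp only [II, Finset.coe_filter, Finset.mem_Ioc, Set.mem_ofPred_eq, mul_div_cancel₀ a
      (two_ne_zero)]
    constructor
    · rintro ⟨h5, h6, h7⟩
      exact ⟨⟨by omega, h6⟩, h7⟩
    · rintro ⟨⟨h5, h6⟩, h7⟩
      exact ⟨by omega, h6, h7⟩
  rw [e] at hcon
  have h5 := h3 hcon.le
  linarith

end Pool.Agent.Zk99.NV
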