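import Mathlib

set_option autoImplicit false

open MeasureTheory Set Filter Topology

namespace Pool.Agent.Zk99.NV

/-- the points of `S` with imaginary part in `(0, T]` -/
def ZT (S : Set ℂ) (T : ℝ) : Set ℂ := {s | s ∈ S ∧ 0 < s.im ∧ s.im ≤ T}

/-- the counting function with weights -/
noncomputable def NN (S : Set ℂ) (m : ℂ → ℝ) (T : ℝ) : ℝ := ∑ᶠ s ∈ ZT S T, m s

/-- the pair sum with the tent of length `lam` times the mean spacing -/
noncomputable def PS (S : Set ℂ) (m : ℂ → ℝ) (T lam : ℝ) : ℝ :=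
  ∑ᶠ s ∈ ZT S T, ∑ᶠ s' ∈ ZT S T,
    m s * m s' * max 0 (1 - |s.im - s'.im| * Real.log T / (2 * Real.pi * lam))

/-- the number variance and the pair sum with the tent -/
def S_VAR : Prop := ∀ (S : Set ℂ) (m : ℂ → ℝ), (∀ s, 0 ≤ m s) → (∀ T, (ZT S T).Finite) →
  Tendsto (fun T => NN S m T / (T * Real.log T / (2 * Real.pi))) atTop (𝓝 1) →
  (∃ C : ℝ, ∀ᶠ T in atTop, NN S m (T + 1) - NN S m (T - 1) ≤ C * Real.log T ^ 2) →
  ∀ lam : ℝ, 0 < lam →
    Tendsto (fun T => (1 / T) * (∫ t in (0 : ℝ)..T,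
        (NN S m (t + 2 * Real.pi * lam / Real.log T) - NN S m t - lam) ^ 2) -
      lam * (PS S m T lam / (T * Real.log T / (2 * Real.pi)))) atTop (𝓝 (-lam ^ 2))

end Pool.Agent.Zk99.NV
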