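import Pool.Agent.Zk99.NV.Stm

set_option autoImplicit false

open MeasureTheory Set Filter Topology

namespace Pool.Agent.Zk99.NV

variable {S : Set ℂ} {m : ℂ → ℝ}

/-- the indicator of `[g - h, g)` -/
noncomputable def E (h g t : ℝ) : ℝ := (Ico (g - h) g).indicator (fun _ => (1 : ℝ)) t

lemma E_mul (h g g' t : ℝ) : E h g t * E h g' t =
    (Ico (max g g' - h) (min g g')).indicator (fun _ => (1 : ℝ)) t := by
  unfold E
  rw [← inter_indicator_mul]
  simp only [mul_one]
  congr 1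
  ext x
  simp only [mem_inter_iff, mem_Ico, lt_min_iff, sub_le_iff_le_add, max_le_iff]
  tauto

lemma E_nonneg (h g t : ℝ) : 0 ≤ E h g t := indicator_nonneg (fun _ _ => zero_le_one) _

lemma ind_ii (p q a b : ℝ) :
    IntervalIntegrable ((Ico p q).indicator fun _ => (1 : ℝ)) volume a b := by
  refine (intervalIntegrable_const (c := (1 : ℝ))).mono_fun
    (measurable_const.indicator measurableSet_Ico).aestronglyMeasurable
    (ae_of_all _ fun x => ?_)
  show ‖(Ico p q).indicator (fun _ => (1 : ℝ)) x‖ ≤ ‖(1 : ℝ)‖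
  rw [norm_indicator_eq_indicator_norm]
  exact indicator_le_self' (fun _ _ => norm_nonneg _) x

lemma ind_int {T : ℝ} (hT : 0 ≤ T) (p q : ℝ) :
    ∫ t in (0 : ℝ)..T, (Ico p q).indicator (fun _ => (1 : ℝ)) t =
      volume.real (Ico p q ∩ Icc 0 T) := by
  rw [intervalIntegral.integral_of_le hT, ← integral_Icc_eq_integral_Ioc,
    integral_indicator measurableSet_Ico, Measure.restrict_restrict measurableSet_Ico]
  simp

lemma ind_le {T : ℝ} (hT : 0 ≤ T) (p q : ℝ) :
    ∫ t in (0 : ℝ)..T, (Ico p q).indicator (fun _ => (1 : ℝ)) t ≤ max 0 (q - p) := by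
  rw [ind_int hT]
  calc volume.real (Ico p q ∩ Icc 0 T) ≤ volume.real (Ico p q) :=
        measureReal_mono inter_subset_left (by simp)
    _ = max 0 (q - p) := by
        rw [Real.volume_real_Ico, max_comm]

lemma ind_eq {T : ℝ} (hT : 0 ≤ T) {p q : ℝ} (hp : 0 ≤ p) (hq : q ≤ T) :
    ∫ t in (0 : ℝ)..T, (Ico p q).indicator (fun _ => (1 : ℝ)) t = max 0 (q - p) := by
  have e : Ico p q ∩ Icc 0 T = Ico p q :=
    inter_eq_left.2 fun x hx => ⟨hp.trans hx.1, hx.2.le.trans hq⟩
  rw [ind_int hT, e, Real.volume_real_Ico, max_comm]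

/-- the tent -/
noncomputable def te (h g g' : ℝ) : ℝ := max 0 (h - |g - g'|)

lemma te_nonneg (h g g' : ℝ) : 0 ≤ te h g g' := le_max_left _ _

lemma te_symm (h g g' : ℝ) : te h g g' = te h g' g := by
  unfold te
  rw [abs_sub_comm]

lemma minmax (h g g' : ℝ) : min g g' - (max g g' - h) = h - |g - g'| := by
  have := max_sub_min_eq_abs g g'
  rw [abs_sub_comm] at this
  linarith

lemma EE_le {T : ℝ} (hT : 0 ≤ T) (h g g' : ℝ) :
    ∫ t in (0 : ℝ)..T, E h g t * E h g' t ≤ te h g g' := by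
  simp_rw [E_mul]
  refine (ind_le hT _ _).trans (le_of_eq ?_)
  rw [minmax]
  rfl

lemma EE_eq {T : ℝ} (hT : 0 ≤ T) {h g g' : ℝ} (hg : h ≤ g) (hgT : g ≤ T) :
    ∫ t in (0 : ℝ)..T, E h g t * E h g' t = te h g g' := by
  simp_rw [E_mul]
  rw [ind_eq hT (by linarith [le_max_left g g']) ((min_le_left _ _).trans hgT), minmax]
  rfl

lemma EE_nonneg {T : ℝ} (hT : 0 ≤ T) (h g g' : ℝ) :
    0 ≤ ∫ t in (0 : ℝ)..T, E h g t * E h g' t :=
  intervalIntegral.integral_nonneg hT fun _ _ => mul_nonneg (E_nonneg _ _ _) (E_nonneg _ _ _)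

lemma E_le {T : ℝ} (hT : 0 ≤ T) {h : ℝ} (hh : 0 ≤ h) (g : ℝ) :
    ∫ t in (0 : ℝ)..T, E h g t ≤ h := by
  refine (ind_le hT _ _).trans (le_of_eq ?_)
  rw [sub_sub_cancel, max_eq_right hh]

lemma E_eq {T : ℝ} (hT : 0 ≤ T) {h g : ℝ} (hh : 0 ≤ h) (hg : h ≤ g) (hgT : g ≤ T) :
    ∫ t in (0 : ℝ)..T, E h g t = h := by
  refine (ind_eq hT (by linarith) hgT).trans ?_
  rw [sub_sub_cancel, max_eq_right hh]

lemma E_int_nonneg {T : ℝ} (hT : 0 ≤ T) (h g : ℝ) : 0 ≤ ∫ t in (0 : ℝ)..T, E h g t :=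
  intervalIntegral.integral_nonneg hT fun _ _ => E_nonneg _ _ _

/-- the counting function as a sum over a large finite set -/
lemma NN_eq (hf : ∀ T, (ZT S T).Finite) {t U : ℝ} (htU : t ≤ U) :
    NN S m t = ∑ s ∈ (hf U).toFinset, if s.im ≤ t then m s else 0 := by
  classical
  unfold NN
  rw [finsum_mem_eq_finite_toFinset_sum _ (hf t), ← Finset.sum_filter]
  refine Finset.sum_congr ?_ fun _ _ => rfl
  ext s
  simp only [Set.Finite.mem_toFinset, Finset.mem_filter, ZT, mem_ofPred_eq]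
  constructor
  · rintro ⟨h1, h2, h3⟩
    exact ⟨⟨h1, h2, h3.trans htU⟩, h3⟩
  · rintro ⟨⟨h1, h2, _⟩, h3⟩
    exact ⟨h1, h2, h3⟩

lemma NN_mono (hm : ∀ s, 0 ≤ m s) (hf : ∀ T, (ZT S T).Finite) {t t' : ℝ} (h : t ≤ t') :
    NN S m t ≤ NN S m t' := by
  rw [NN_eq hf h, NN_eq hf (le_refl t')]
  refine Finset.sum_le_sum fun s _ => ?_
  by_cases h1 : s.im ≤ t
  · rw [if_pos h1, if_pos (h1.trans h)]
  · rw [if_neg h1]
    split_ifs
    · exact hm s
    · exact le_rfl

/-- the step function -/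
lemma NN_diff (hf : ∀ T, (ZT S T).Finite) {h t U : ℝ} (hh : 0 ≤ h) (htU : t + h ≤ U) :
    NN S m (t + h) - NN S m t = ∑ s ∈ (hf U).toFinset, m s * E h s.im t := by
  rw [NN_eq hf htU, NN_eq hf (show t ≤ U by linarith), ← Finset.sum_sub_distrib]
  refine Finset.sum_congr rfl fun s _ => ?_
  unfold E
  by_cases h1 : s.im ≤ t
  · rw [if_pos h1, if_pos (by linarith), indicator_of_notMem (by
      intro hx
      exact absurd hx.2 (not_lt.2 h1))]
    ring
  · rw [if_neg h1]
    push Not at h1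
    by_cases h2 : s.im ≤ t + h
    · rw [if_pos h2, indicator_of_mem (by exact ⟨by linarith, h1⟩)]
      ring
    · rw [if_neg h2, indicator_of_notMem (by
        intro hx
        apply h2
        linarith [hx.1])]
      ring

section fixed

variable {T h : ℝ}

/-- the pair sum over a large finite set -/
lemma PSh_eq (hf : ∀ T, (ZT S T).Finite) (hh : 0 ≤ h) :
    ∑ s ∈ (hf T).toFinset, ∑ s' ∈ (hf T).toFinset, m s * m s' * te h s.im s'.im =
      ∑ s ∈ (hf (T + h)).toFinset, ∑ s' ∈ (hf (T + h)).toFinset,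
        (if s.im ≤ T then 1 else 0) * (if s'.im ≤ T then 1 else 0) *
          (m s * m s' * te h s.im s'.im) := by
  classical
  have e : (hf T).toFinset = (hf (T + h)).toFinset.filter fun s => s.im ≤ T := by
    ext s
    simp only [Set.Finite.mem_toFinset, Finset.mem_filter, ZT, mem_ofPred_eq]
    constructor
    · rintro ⟨h1, h2, h3⟩
      exact ⟨⟨h1, h2, by linarith⟩, h3⟩
    · rintro ⟨⟨h1, h2, _⟩, h3⟩
      exact ⟨h1, h2, h3⟩
  rw [e, Finset.sum_filter]
  refine Finset.sum_congr rfl fun s _ => ?_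
  by_cases h1 : s.im ≤ T
  · rw [if_pos h1, Finset.sum_filter]
    refine Finset.sum_congr rfl fun s' _ => ?_
    rw [if_pos h1]
    by_cases h2 : s'.im ≤ T
    · rw [if_pos h2, if_pos h2]; ring
    · rw [if_neg h2, if_neg h2]; ring
  · rw [if_neg h1]
    symm
    refine Finset.sum_eq_zero fun s' _ => ?_
    rw [if_neg h1]; ring

lemma int_sq (hf : ∀ T, (ZT S T).Finite) :
    ∫ t in (0 : ℝ)..T, (∑ s ∈ (hf (T + h)).toFinset, m s * E h s.im t) ^ 2 =
      ∑ s ∈ (hf (T + h)).toFinset, ∑ s' ∈ (hf (T + h)).toFinset,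
        m s * m s' * ∫ t in (0 : ℝ)..T, E h s.im t * E h s'.im t := by
  have ii : ∀ s s' : ℂ, IntervalIntegrable (fun t => m s * m s' * (E h s.im t * E h s'.im t))
      volume 0 T := by
    intro s s'
    refine IntervalIntegrable.const_mul ?_ _
    simp_rw [E_mul]
    exact ind_ii _ _ _ _
  have e1 : ∀ t : ℝ, (∑ s ∈ (hf (T + h)).toFinset, m s * E h s.im t) ^ 2 =
      ∑ s ∈ (hf (T + h)).toFinset, ∑ s' ∈ (hf (T + h)).toFinset,
        m s * m s' * (E h s.im t * E h s'.im t) := by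
    intro t
    rw [sq, Finset.sum_mul_sum]
    refine Finset.sum_congr rfl fun s _ => Finset.sum_congr rfl fun s' _ => ?_
    ring
  simp_rw [e1]
  rw [intervalIntegral.integral_finsetSum fun s _ => ?_]
  · refine Finset.sum_congr rfl fun s _ => ?_
    rw [intervalIntegral.integral_finsetSum fun s' _ => ii s s']
    refine Finset.sum_congr rfl fun s' _ => ?_
    rw [intervalIntegral.integral_const_mul]
  · have := IntervalIntegrable.sum (hf (T + h)).toFinset (fun s' _ => ii s s')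
    refine this.congr (fun t _ => ?_)
    simp

lemma int_lin (hf : ∀ T, (ZT S T).Finite) :
    ∫ t in (0 : ℝ)..T, (∑ s ∈ (hf (T + h)).toFinset, m s * E h s.im t) =
      ∑ s ∈ (hf (T + h)).toFinset, m s * ∫ t in (0 : ℝ)..T, E h s.im t := by
  have ii : ∀ s : ℂ, IntervalIntegrable (fun t => m s * E h s.im t) volume 0 T :=
    fun s => (ind_ii _ _ _ _).const_mul _
  rw [intervalIntegral.integral_finsetSum fun s _ => ii s]
  refine Finset.sum_congr rfl fun s _ => ?_
  rw [intervalIntegral.integral_const_mul]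

lemma sq_low (hm : ∀ s, 0 ≤ m s) (hf : ∀ T, (ZT S T).Finite) (hT : 0 ≤ T) (hh : 0 ≤ h)
    (hlow : ∀ s ∈ ZT S T, h ≤ s.im) :
    ∑ s ∈ (hf T).toFinset, ∑ s' ∈ (hf T).toFinset, m s * m s' * te h s.im s'.im ≤
      ∫ t in (0 : ℝ)..T, (∑ s ∈ (hf (T + h)).toFinset, m s * E h s.im t) ^ 2 := by
  rw [int_sq hf, PSh_eq hf hh]
  refine Finset.sum_le_sum fun s hs => Finset.sum_le_sum fun s' _ => ?_
  have hmm : 0 ≤ m s * m s' := mul_nonneg (hm s) (hm s')
  have h0 := mul_nonneg hmm (EE_nonneg hT h s.im s'.im)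
  by_cases h1 : s.im ≤ T
  · have h2 : h ≤ s.im := by
      apply hlow
      rw [Set.Finite.mem_toFinset] at hs
      exact ⟨hs.1, hs.2.1, h1⟩
    rw [if_pos h1, EE_eq hT h2 h1]
    rw [EE_eq hT h2 h1] at h0
    split_ifs <;> simp only [one_mul, mul_one, mul_zero, zero_mul] <;> linarith
  · rw [if_neg h1]
    simpa using h0

lemma sq_up (hm : ∀ s, 0 ≤ m s) (hf : ∀ T, (ZT S T).Finite) (hT : 0 ≤ T) (hh : 0 ≤ h)
    (hh1 : h ≤ 1) :
    ∫ t in (0 : ℝ)..T, (∑ s ∈ (hf (T + h)).toFinset, m s * E h s.im t) ^ 2 ≤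
      (∑ s ∈ (hf T).toFinset, ∑ s' ∈ (hf T).toFinset, m s * m s' * te h s.im s'.im) +
        2 * (h * (NN S m (T + 1) - NN S m (T - 1)) ^ 2) := by
  classical
  rw [int_sq hf, PSh_eq hf hh]
  obtain ⟨A, hA⟩ : ∃ A, A = (hf (T + h)).toFinset := ⟨_, rfl⟩
  rw [← hA]
  obtain ⟨z, hz⟩ : ∃ z : ℂ → ℝ, ∀ s, z s = if s.im ≤ T then 1 else 0 := ⟨_, fun _ => rfl⟩
  obtain ⟨y, hy⟩ : ∃ y : ℂ → ℝ, ∀ s, y s = if s.im ≤ T - 1 then 0 else 1 := ⟨_, fun _ => rfl⟩
  simp_rw [← hz]
  have hz01 : ∀ s, z s = 0 ∨ z s = 1 := fun s => by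
    rw [hz]
    split_ifs
    · exact Or.inr rfl
    · exact Or.inl rfl
  have hW0 : NN S m (T + h) - NN S m T = ∑ s ∈ A, (1 - z s) * m s := by
    rw [NN_eq hf (le_refl (T + h)), NN_eq hf (show T ≤ T + h by linarith), ← hA,
      ← Finset.sum_sub_distrib]
    refine Finset.sum_congr rfl fun s hs => ?_
    have : s.im ≤ T + h := by
      rw [hA, Set.Finite.mem_toFinset] at hs
      exact hs.2.2
    rw [if_pos this, hz]
    split_ifs <;> ring
  have hW1 : NN S m (T + h) - NN S m (T - 1) = ∑ s ∈ A, y s * m s := by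
    rw [NN_eq hf (le_refl (T + h)), NN_eq hf (show T - 1 ≤ T + h by linarith), ← hA,
      ← Finset.sum_sub_distrib]
    refine Finset.sum_congr rfl fun s hs => ?_
    have : s.im ≤ T + h := by
      rw [hA, Set.Finite.mem_toFinset] at hs
      exact hs.2.2
    rw [if_pos this, hy]
    split_ifs <;> ring
  have hb : ∀ s s' : ℂ, (1 - z s) * (m s * m s' * te h s.im s'.im) ≤
      h * (((1 - z s) * m s) * (y s' * m s')) := by
    intro s s'
    rcases hz01 s with h1 | h1
    · rw [h1, sub_zero, one_mul, one_mul]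
      have h2 : T < s.im := by
        by_contra hcon
        push Not at hcon
        rw [hz, if_pos hcon] at h1
        norm_num at h1
      have h3 : te h s.im s'.im ≤ h * y s' := by
        rw [hy]
        split_ifs with h4
        · rw [mul_zero]
          unfold te
          apply max_le le_rfl
          have : 1 ≤ |s.im - s'.im| := by
            rw [abs_of_nonneg (by linarith)]
            linarith
          linarith
        · rw [mul_one]
          unfold te
          apply max_le hh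
          linarith [abs_nonneg (s.im - s'.im)]
      have hmm : 0 ≤ m s * m s' := mul_nonneg (hm s) (hm s')
      calc m s * m s' * te h s.im s'.im ≤ m s * m s' * (h * y s') :=
            mul_le_mul_of_nonneg_left h3 hmm
        _ = h * (m s * (y s' * m s')) := by ring
    · rw [h1]; simp
  have hb2 : ∑ s ∈ A, ∑ s' ∈ A, (1 - z s) * (m s * m s' * te h s.im s'.im) ≤
      h * (NN S m (T + 1) - NN S m (T - 1)) ^ 2 := by
    calc ∑ s ∈ A, ∑ s' ∈ A, (1 - z s) * (m s * m s' * te h s.im s'.im) ≤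
        ∑ s ∈ A, ∑ s' ∈ A, h * (((1 - z s) * m s) * (y s' * m s')) :=
          Finset.sum_le_sum fun s _ => Finset.sum_le_sum fun s' _ => hb s s'
      _ = h * ((NN S m (T + h) - NN S m T) * (NN S m (T + h) - NN S m (T - 1))) := by
          rw [hW0, hW1, Finset.sum_mul_sum, Finset.mul_sum]
          refine Finset.sum_congr rfl fun s _ => ?_
          rw [Finset.mul_sum]
      _ ≤ h * ((NN S m (T + 1) - NN S m (T - 1)) * (NN S m (T + 1) - NN S m (T - 1))) := by
          have g1 := NN_mono (S := S) hm hf (show T + h ≤ T + 1 by linarith)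
          have g2 := NN_mono (S := S) hm hf (show T - 1 ≤ T by linarith)
          have g3 := NN_mono (S := S) hm hf (show T ≤ T + h by linarith)
          apply mul_le_mul_of_nonneg_left _ hh
          apply mul_le_mul (by linarith) (by linarith) (by linarith) (by linarith)
      _ = _ := by ring
  have hb3 : ∑ s ∈ A, ∑ s' ∈ A, (1 - z s') * (m s * m s' * te h s.im s'.im) ≤
      h * (NN S m (T + 1) - NN S m (T - 1)) ^ 2 := by
    rw [Finset.sum_comm]
    refine le_trans (le_of_eq ?_) hb2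
    refine Finset.sum_congr rfl fun s _ => Finset.sum_congr rfl fun s' _ => ?_
    rw [te_symm]
    ring
  have hmain : ∑ s ∈ A, ∑ s' ∈ A, m s * m s' * ∫ t in (0 : ℝ)..T, E h s.im t * E h s'.im t ≤
      ∑ s ∈ A, ∑ s' ∈ A, (z s * z s' * (m s * m s' * te h s.im s'.im) +
        ((1 - z s) * (m s * m s' * te h s.im s'.im) +
        (1 - z s') * (m s * m s' * te h s.im s'.im))) := by
    refine Finset.sum_le_sum fun s _ => Finset.sum_le_sum fun s' _ => ?_
    have hmm : 0 ≤ m s * m s' := mul_nonneg (hm s) (hm s')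
    have h0 := mul_nonneg hmm (te_nonneg h s.im s'.im)
    have h1 := mul_le_mul_of_nonneg_left (EE_le hT h s.im s'.im) hmm
    rcases hz01 s with h2 | h2 <;> rcases hz01 s' with h3 | h3 <;> rw [h2, h3] <;> linarith
  simp only [Finset.sum_add_distrib] at hmain
  linarith

lemma lin_low (hm : ∀ s, 0 ≤ m s) (hf : ∀ T, (ZT S T).Finite) (hT : 0 ≤ T) (hh : 0 ≤ h)
    (hlow : ∀ s ∈ ZT S T, h ≤ s.im) :
    h * NN S m T ≤ ∫ t in (0 : ℝ)..T, (∑ s ∈ (hf (T + h)).toFinset, m s * E h s.im t) := by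
  rw [int_lin hf, NN_eq hf (show T ≤ T + h by linarith), Finset.mul_sum]
  refine Finset.sum_le_sum fun s hs => ?_
  by_cases h1 : s.im ≤ T
  · have h2 : h ≤ s.im := by
      apply hlow
      rw [Set.Finite.mem_toFinset] at hs
      exact ⟨hs.1, hs.2.1, h1⟩
    rw [if_pos h1, E_eq hT hh h2 h1, mul_comm]
  · rw [if_neg h1, mul_zero]
    exact mul_nonneg (hm s) (E_int_nonneg hT h _)

lemma lin_up (hm : ∀ s, 0 ≤ m s) (hf : ∀ T, (ZT S T).Finite) (hT : 0 ≤ T) (hh : 0 ≤ h)
    (hh1 : h ≤ 1) :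
    ∫ t in (0 : ℝ)..T, (∑ s ∈ (hf (T + h)).toFinset, m s * E h s.im t) ≤
      h * NN S m T + h * (NN S m (T + 1) - NN S m (T - 1)) := by
  have h1 : ∫ t in (0 : ℝ)..T, (∑ s ∈ (hf (T + h)).toFinset, m s * E h s.im t) ≤
      h * NN S m (T + h) := by
    rw [int_lin hf, NN_eq hf (le_refl (T + h)), Finset.mul_sum]
    refine Finset.sum_le_sum fun s hs => ?_
    have : s.im ≤ T + h := by
      rw [Set.Finite.mem_toFinset] at hs
      exact hs.2.2
    rw [if_pos this, mul_comm]
    exact mul_le_mul_of_nonneg_right (E_le hT hh _) (hm s)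
  have g1 := NN_mono (S := S) hm hf (show T + h ≤ T + 1 by linarith)
  have g2 := NN_mono (S := S) hm hf (show T - 1 ≤ T by linarith)
  have g3 : h * NN S m (T + h) ≤ h * (NN S m T + (NN S m (T + 1) - NN S m (T - 1))) :=
    mul_le_mul_of_nonneg_left (by linarith) hh
  rw [mul_add] at g3
  linarith

/-- expansion of the square -/
lemma expand (hf : ∀ T, (ZT S T).Finite) (hT : 0 ≤ T) (hh : 0 ≤ h) (lam : ℝ) :
    ∫ t in (0 : ℝ)..T, (NN S m (t + h) - NN S m t - lam) ^ 2 =
      (∫ t in (0 : ℝ)..T, (∑ s ∈ (hf (T + h)).toFinset, m s * E h s.im t) ^ 2) -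
      2 * lam * (∫ t in (0 : ℝ)..T, (∑ s ∈ (hf (T + h)).toFinset, m s * E h s.im t)) +
      lam ^ 2 * T := by
  obtain ⟨f, hfd⟩ : ∃ f : ℝ → ℝ, ∀ t, f t = ∑ s ∈ (hf (T + h)).toFinset, m s * E h s.im t :=
    ⟨_, fun _ => rfl⟩
  simp_rw [← hfd]
  have i1 : IntervalIntegrable f volume 0 T := by
    have := IntervalIntegrable.sum (μ := volume) (a := 0) (b := T) (hf (T + h)).toFinset
      (f := fun s t => m s * E h s.im t) (fun s _ => (ind_ii _ _ _ _).const_mul _)
    refine this.congr (fun t _ => ?_)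
    rw [hfd]
    simp
  have i2 : IntervalIntegrable (fun t => f t ^ 2) volume 0 T := by
    have ii : ∀ s s' : ℂ, IntervalIntegrable
        (fun t => m s * m s' * (E h s.im t * E h s'.im t)) volume 0 T := by
      intro s s'
      refine IntervalIntegrable.const_mul ?_ _
      simp_rw [E_mul]
      exact ind_ii _ _ _ _
    have := IntervalIntegrable.sum (μ := volume) (a := 0) (b := T) (hf (T + h)).toFinset
      (f := fun s => ∑ s' ∈ (hf (T + h)).toFinset, fun t => m s * m s' *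
        (E h s.im t * E h s'.im t))
      (fun s _ => IntervalIntegrable.sum (hf (T + h)).toFinset (fun s' _ => ii s s'))
    refine this.congr (fun t _ => ?_)
    rw [hfd, sq, Finset.sum_mul_sum]
    simp only [Finset.sum_apply]
    refine Finset.sum_congr rfl fun s _ => Finset.sum_congr rfl fun s' _ => ?_
    ring
  have e1 : ∫ t in (0 : ℝ)..T, (NN S m (t + h) - NN S m t - lam) ^ 2 =
      ∫ t in (0 : ℝ)..T, ((f t ^ 2 - 2 * lam * f t) + lam ^ 2) := by
    refine intervalIntegral.integral_congr fun t ht => ?_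
    rw [uIcc_of_le hT] at ht
    show (NN S m (t + h) - NN S m t - lam) ^ 2 = (f t ^ 2 - 2 * lam * f t) + lam ^ 2
    rw [NN_diff hf hh (show t + h ≤ T + h by linarith [ht.2]), ← hfd]
    ring
  rw [e1, intervalIntegral.integral_add (i2.sub (i1.const_mul _)) intervalIntegrable_const,
    intervalIntegral.integral_sub i2 (i1.const_mul _), intervalIntegral.integral_const_mul,
    intervalIntegral.integral_const, smul_eq_mul]
  ring

end fixed

end Pool.Agent.Zk99.NV
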